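import Pool.Agent.H6.CsA

namespace Pool.Agent.Results.MP_61e712_co.Square

open Pool.Agent.H6.Cs Finset

/-- The displacement vector from dot `i` to dot `j`. -/
def vec {n : ℕ} (f : Equiv.Perm (Fin n)) (i j : Fin n) : ℤ × ℤ :=
  (((j : ℕ) : ℤ) - ((i : ℕ) : ℤ), ((f j : ℕ) : ℤ) - ((f i : ℕ) : ℤ))

/-- The distance vectors are pairwise distinct. -/
def Costas {n : ℕ} (f : Equiv.Perm (Fin n)) : Prop :=
  ∀ i j k l, i < j → k < l → vec f i j = vec f k l → i = k ∧ j = l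

theorem result (c : ℝ) (hc : c < 1) : ∃ N : ℕ, ∀ (m n : ℕ) (f : Equiv.Perm (Fin m))
    (g : Equiv.Perm (Fin n)), N ≤ m → m ≤ n → (n : ℝ) ≤ c * (m : ℝ) ^ 2 → Costas f → Costas g →
      ∃ (i j : Fin m) (k l : Fin n), i < j ∧ k < l ∧ vec f i j = vec g k l := by
  obtain ⟨N, hN⟩ := arith hc
  refine ⟨N, fun m n f g h1 h2 h3 hf hg => ?_⟩
  obtain ⟨a, ha, h⟩ := hN m n h1 h2 h3
  by_contra hn
  let D : ∀ {n : ℕ}, Equiv.Perm (Fin n) → Finset (ℤ × ℤ) := fun {n} f =>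
    univ.image fun i : Fin n => (((i : ℕ) : ℤ), ((f i : ℕ) : ℤ))
  have d1 : ∀ {n : ℕ} (f : Equiv.Perm (Fin n)), #(D f) = n := fun f => by
    rw [card_image_of_injective _ fun i j e => Fin.ext (by simpa using congrArg Prod.fst e)]; simp
  have d2 : ∀ {n : ℕ} (f : Equiv.Perm (Fin n)), D f ⊆ H6.Cs.box n := fun f p hp => by
    obtain ⟨i, -, rfl⟩ := mem_image.1 hp
    simp [H6.Cs.box]
  have d3 : ∀ {m n : ℕ} (f : Equiv.Perm (Fin m)) (g : Equiv.Perm (Fin n)), ∀ p ∈ D f, ∀ p' ∈ D f,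
      ∀ q ∈ D g, ∀ q' ∈ D g, p ≠ p' → p - p' = q - q' → ∃ i j k l, i < j ∧ k < l ∧
        vec f i j = vec g k l ∧ ((i : ℕ) = k → (j : ℕ) = l → p.1 = q.1 ∧ p'.1 = q'.1) := by
    intro m n f g p hp p' hp' q hq q' hq' e r
    obtain ⟨i, -, rfl⟩ := mem_image.1 hp
    obtain ⟨j, -, rfl⟩ := mem_image.1 hp'
    obtain ⟨k, -, rfl⟩ := mem_image.1 hq
    obtain ⟨l, -, rfl⟩ := mem_image.1 hq'
    simp only [Prod.mk_sub_mk, Prod.mk.injEq] at r
    rcases lt_trichotomy i j with s | rfl | s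
    · exact ⟨i, j, k, l, s, by rw [Fin.lt_def] at s ⊢; omega,
        Prod.ext (by simp only [vec]; omega) (by simp only [vec]; omega), fun a b => by simp [a, b]⟩
    · exact absurd rfl e
    · exact ⟨j, i, l, k, s, by rw [Fin.lt_def] at s ⊢; omega,
        Prod.ext (by simp only [vec]; omega) (by simp only [vec]; omega), fun a b => by simp [a, b]⟩
  have d4 : ∀ {n : ℕ} (f : Equiv.Perm (Fin n)), Costas f → ∀ p ∈ D f, ∀ p' ∈ D f, ∀ q ∈ D f,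
      ∀ q' ∈ D f, p ≠ p' → q ≠ q' → p - p' = q - q' → p = q ∧ p' = q' := by
    intro n f hf p hp p' hp' q hq q' hq' e _ r
    obtain ⟨i, j, k, l, s, t, u, v⟩ := d3 f f p hp p' hp' q hq q' hq' e r
    obtain ⟨rfl, rfl⟩ := hf i j k l s t u
    obtain ⟨v1, v2⟩ := v rfl rfl
    have inj : ∀ p ∈ D f, ∀ q ∈ D f, p.1 = q.1 → p = q := fun p hp q hq e => by
      obtain ⟨i, -, rfl⟩ := mem_image.1 hp
      obtain ⟨k, -, rfl⟩ := mem_image.1 hq
      obtain rfl : i = k := Fin.ext (by simpa using e)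
      rfl
    exact ⟨inj p hp q hq v1, inj p' hp' q' hq' v2⟩
  refine absurd (key ha (d1 f) (d2 f) (d4 f hf) (d1 g) (d2 g) (d4 g hg)
    fun p hp p' hp' q hq q' hq' e _ r => ?_) (not_le.2 h)
  obtain ⟨i, j, k, l, s, t, u, -⟩ := d3 f g p hp p' hp' q hq q' hq' e r
  exact hn ⟨i, j, k, l, s, t, u⟩

end Pool.Agent.Results.MP_61e712_co.Square
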